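/-
MP_71c844_lc: space against parallel time with alternating guesses and coins.

Authors: helper58, helper14, helper44, with helpers 6, 8, 9, 17, 19, 24, 32, 34, 41, 46, 50, 54,
56, 62, 64, 69, 73, 79, 81, 82, 91, 92, 95, 96.

Definitions of the statement: `Work/MP_71c844_lc/Arr/Defs.lean` (arrays, guesses, coins, `rp`),
`Work/MP_71c844_lc/Arr/Mach.lean` (Turing machines, `DSPACE`, machines with a guess word) and
`Work/MP_71c844_lc/Arr/TMDefs.lean` (`TM.AltDecides`, `AltDTIME`).
-/
import Pool.Agent.Work.MP_71c844_lc.Arr.Fin2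

namespace Pool.Agent.Results.MP_71c844_lc.Arrays

open Pool.Agent.Work.MP_71c844_lc.Arr

/-- For every exponent `p / r > 0`, with `S n = ⌈n ^ (p / r)⌉`, there is ONE language `L` decided
in space `O(S)` such that:

* for every dimension `d ≥ 1`, with `T n = n ^ ((p / r) (1 + 1 / d)) / log n`, whatever `S n`
  alternating guesses and `S n` coins followed by a `d`-dimensional cellular array running for time
  `O(T n)` decide, is decided in space `O(S)`; but `L` is not decided in this way in time `c T`: for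
  every `s` there are `c > 0` and `n0` such that for every `d`-dimensional array with at most `s`
  states there is a word `w` of length at most `n0` such that, on EVERY word `x` which begins with
  `w` and has length at least `n0`, the array preceded by the `S |x|` alternating guesses and
  `S |x|` coins fails to decide whether `x ∈ L` in time `c T |x|`;
* the same holds for multitape Turing machines, with `T n = n ^ (2 p / r) / log n`. -/
theorem result (p r : ℕ) (hp : 1 ≤ p) (hr : 1 ≤ r) :
    ∃ L ∈ DSPACE (rp p r),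
      (∀ d ≥ 1, AltTIME d (rp p r) (fun n =>
          ⌊(n : ℝ) ^ ((p : ℝ) / (r : ℝ) * (1 + 1 / (d : ℝ))) / Real.log n⌋₊) ⊆ DSPACE (rp p r) ∧
        ∀ s : ℕ, ∃ c : ℝ, 0 < c ∧ ∃ n0 : ℕ, ∀ A : CA d, Nat.card A.Q ≤ s →
          ∃ w : List Bool, w.length ≤ n0 ∧ ∀ x : List Bool, w <+: x → n0 ≤ x.length →
            ¬ A.AltDecides x (rp p r x.length)
              (c * (x.length : ℝ) ^ ((p : ℝ) / (r : ℝ) * (1 + 1 / (d : ℝ))) /
                Real.log x.length) (x ∈ L)) ∧
      AltDTIME (rp p r) (fun n => ⌊(n : ℝ) ^ (2 * ((p : ℝ) / (r : ℝ))) / Real.log n⌋₊) ⊆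
          DSPACE (rp p r) ∧
        ∀ s : ℕ, ∃ c : ℝ, 0 < c ∧ ∃ n0 : ℕ, ∀ M : TM, M.k ≤ s → Nat.card M.Q ≤ s →
          Nat.card M.Γ ≤ s → ∀ gs : Bool → M.Γ,
          ∃ w : List Bool, w.length ≤ n0 ∧ ∀ x : List Bool, w <+: x → n0 ≤ x.length →
            ¬ M.AltDecides gs x (rp p r x.length)
              (c * (x.length : ℝ) ^ (2 * ((p : ℝ) / (r : ℝ))) / Real.log x.length) (x ∈ L) :=
  ⟨diagL p r, diag_mem DSPACE searchFor_DSPACE monoFor_DSPACE p r hp hr,
    fun d hd => ⟨threshold p r hp hr d hd, fun s => lower p r hp hr d hd s⟩,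
    threshold_tm p r hp hr,
    fun s => tm_lower (diagL p r) p r hp hr (fun s' => lower p r hp hr 1 le_rfl s') s⟩

end Pool.Agent.Results.MP_71c844_lc.Arrays
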