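import Pool.Agent.Work.MP_71c844_lc.GR.AllB
import Pool.Agent.Work.MP_71c844_lc.AV.Gap

namespace Pool.Agent.Results.MP_71c844_lc.CliqueGap

open Pool.Agent.LayCirc

open Classical in
/-- **NOT gates of circuits and formulas that approximate the clique number, also on average.** Let
`2 ≤ v`, `1 ≤ s`, `1 ≤ w`, `(log₂ v + 1) (64 (w + 1) ^ 2) ^ D ≤ k` and
`v ^ 12 * (2 ^ 10 s k (w + 1) ^ 2 (log₂ v + 1)) ^ D ≤ v ^ D`. Then there is a probability
distribution `μ` on the graphs on `v` vertices with the following property. Consider a circuit with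
fewer than `2 ^ w` gates whose inputs are the pairs of the `v` vertices, with fan-in-two AND and OR
gates, constants, and arbitrary further gates of any fan-in (for example NOT gates). It errs on a
graph if the graph has a clique on `s` vertices and the circuit rejects it, or if the graph has no
clique on `k` vertices and the circuit accepts it. Let `M` be a bound for the number of different
values that the vector of the values of the gates read by arbitrary gates takes along an increasing
sequence of inputs, or for the number of inputs of the arbitrary gates plus the number of mixing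
gates plus one (or, if each gate that depends on an arbitrary gate is read at most once, plus the
number of arbitrary gates plus one). Then
`v ^ 2 (1 - 2 Pr[the circuit errs]) < 2 ^ 28 * M * s ^ 2 * k * (w + 1) ^ 4 * (log₂ v + 1) ^ 3`,
where the graph is chosen according to `μ`.

In particular, if the circuit never errs, `v ^ 2 < 2 ^ 28 * M * s ^ 2 * k * ..`. -/
theorem result (v s k w D : ℕ) (hv : 2 ≤ v) (hs : 1 ≤ s) (hw : 1 ≤ w)
    (hk : (Nat.log 2 v + 1) * (64 * (w + 1) ^ 2) ^ D ≤ k)
    (hD : v ^ 12 * (2 ^ 10 * s * k * (w + 1) ^ 2 * (Nat.log 2 v + 1)) ^ D ≤ v ^ D) :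
    ∃ μ : (Sym2 (Fin v) → Bool) → ℝ, (∀ x, 0 ≤ μ x) ∧ ∑ x, μ x = 1 ∧
      ∀ (S M : ℕ) (c : Circuit (Sym2 (Fin v)) S) (o : Fin S), S < 2 ^ w →
        ((∀ x : ℕ → (Sym2 (Fin v) → Bool), Monotone x →
            (Set.range fun i => pattern c (x i)).ncard ≤ M) ∨
          wires c + numMixing c + 1 ≤ M ∨ (FormulaLike c ∧ wires c + numArb c + 1 ≤ M)) →
        (v : ℝ) ^ 2 * ∑ x, μ x * (if
            (¬ (SimpleGraph.fromEdgeSet {e | x e = true}).CliqueFree s ∧ val c x o = false) ∨
            ((SimpleGraph.fromEdgeSet {e | x e = true}).CliqueFree k ∧ val c x o = true)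
            then -1 else 1) <
          2 ^ 28 * M * s ^ 2 * k * (w + 1) ^ 4 * (Nat.log 2 v + 1) ^ 3 := by
  obtain ⟨μ, hμ0, hμ1, h⟩ := AV.main_gap GR.itemsB v s k w D hv hs hw hk hD
  refine ⟨μ, hμ0, hμ1, fun S M c o hS hM => ?_⟩
  have key := h S M c o hS hM
  rw [AV.adv_eg hμ1] at key
  convert key

end Pool.Agent.Results.MP_71c844_lc.CliqueGap
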