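import Pool.Agent.Work.MP_71c844_lc.UN.All

namespace Pool.Agent.Results.MP_71c844_lc.CliqueUniform

open Pool.Agent.LayCirc

open Classical in
/-- **CLIQUE is hard on average for a uniform distribution.** Let `L = ⌊log₂ v⌋ + 1`,
`2 ^ 16 (w + 1) ^ 4 L ^ 3 ≤ v` and `40 (w + 1) ^ 2 L ≤ k ≤ v / 2`. Then there are a set `F` of at
least `v ^ 2 / (2 ^ 19 (w + 1) ^ 3 L)` pairs of different vertices and a graph `x₀` such that the
following holds for the uniform distribution on the graphs that are equal to `x₀` outside `F`.
Consider a circuit with fewer than `2 ^ w` gates (AND and OR gates of fan-in two, constants, inputs,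
and arbitrary further gates of any fan-in, for example NOT gates). Let `M` be a bound for the number
of different values that the vector of the values of the gates read by arbitrary gates takes along
an increasing sequence of inputs, or for the number of inputs of arbitrary gates plus the number of
mixing gates plus one (or, if each gate that depends on an arbitrary gate is read at most once, plus
the number of arbitrary gates plus one). Then
`√|F| (Pr[right] - Pr[wrong]) < 2 ^ 18 M (w + 1) ^ 2 L ^ 4`,
where the circuit is right if it accepts exactly when the graph has a clique on `k` vertices.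

In particular, circuits of polynomial size with `t` NOT gates are right with probability at most
`1 / 2 + 2 ^ t polylog(n) / √n`, where `n` is the number of free pairs. -/
theorem result (v k w : ℕ) (hv : 2 ^ 16 * (w + 1) ^ 4 * (Nat.log 2 v + 1) ^ 3 ≤ v)
    (hk : 40 * (w + 1) ^ 2 * (Nat.log 2 v + 1) ≤ k) (hkv : 2 * k ≤ v) :
    ∃ (F : Finset (Sym2 (Fin v))) (x₀ : Sym2 (Fin v) → Bool), (∀ e ∈ F, ¬ e.IsDiag) ∧
      v ^ 2 ≤ 2 ^ 19 * (w + 1) ^ 3 * (Nat.log 2 v + 1) * F.card ∧
      ∀ (s M : ℕ) (c : Circuit (Sym2 (Fin v)) s) (o : Fin s), s < 2 ^ w →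
        ((∀ x : ℕ → (Sym2 (Fin v) → Bool), Monotone x →
            (Set.range fun i => pattern c (x i)).ncard ≤ M) ∨
          wires c + numMixing c + 1 ≤ M ∨ (FormulaLike c ∧ wires c + numArb c + 1 ≤ M)) →
        √F.card * ∑ x : Sym2 (Fin v) → Bool with ∀ e ∉ F, x e = x₀ e,
            (if (val c x o = true ↔
              ¬ (SimpleGraph.fromEdgeSet {e | x e = true}).CliqueFree k) then (1 : ℝ) else -1) <
          2 ^ 18 * M * (w + 1) ^ 2 * (Nat.log 2 v + 1) ^ 4 * 2 ^ F.card := by
  exact UN.main_unif UN.items hv hk hkv

end Pool.Agent.Results.MP_71c844_lc.CliqueUniform
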