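import Pool.Agent.Work.MP_71c844_lc.RH.All

namespace Pool.Agent.Results.MP_71c844_lc.RealGates

open Pool.Agent.RH

/-- **Circuits with real gates for CLIQUE.** Let `2 ≤ v`, `1 ≤ r`, `k ≤ v / 2`, and let `F` be a set
of pairs of different vertices with `2 ^ 13 (r (w + 1)) ^ 2 (log₂ v + 1) ^ 4 ≤ k`, or the set of all
pairs of different vertices with `600 r (w + 1) (log₂ v + 1) ^ 4 ≤ k`. Then there is a probability
distribution `D` on the graphs on `v` vertices, supported on graphs that are equal outside `F`, with
the following property. Consider a circuit with fewer than `2 ^ w` gates, whose wires carry real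
numbers and whose inputs are the pairs `x` of the `v` vertices and the literals of `a` guess bits
`y` (with the values `0` and `1`). Its gates are monotone gates, computing any real functions of any
number of real numbers each of whose values is certified by at most `2 r` inputs (for example all
nondecreasing functions of `2 r` real numbers, or the maximum of any number of real numbers), and
arbitrary gates, computing any real functions of any number of real numbers (for example NOT), but
reading only gates whose values do not depend on the guess. The circuit accepts the graph `x` if the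
output is positive for all guesses `y`, and it is right on `x` if it accepts `x` exactly when `x`
has a clique on `k` vertices. Then there is an increasing sequence of graphs that are equal outside
`F`, such that the number `P` of different values which the vector of the values of the gates read
by arbitrary gates takes along the sequence satisfies
`|F| (Pr[right] - Pr[wrong]) < 2 ^ 38 * P * (a + r (w + 1)) * (r (w + 1)) ^ 2 * (log₂ v + 1) ^ 7`,
where the graph is chosen according to `D`. -/
theorem result (v k w r : ℕ) (hv : 2 ≤ v) (hr : 1 ≤ r) (hkv : 2 * k ≤ v)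
    (F : Finset (Sym2 (Fin v))) (hF : ∀ e ∈ F, ¬ e.IsDiag)
    (hk : 2 ^ 13 * (r * (w + 1)) ^ 2 * (Nat.log 2 v + 1) ^ 4 ≤ k ∨
      (∀ e, ¬ e.IsDiag → e ∈ F) ∧ 600 * (r * (w + 1)) * (Nat.log 2 v + 1) ^ 4 ≤ k) :
    ∃ D : (Sym2 (Fin v) → Bool) → ℝ, (∀ x, 0 ≤ D x) ∧ ∑ x, D x = 1 ∧
      (∀ x y, D x ≠ 0 → D y ≠ 0 → ∀ e ∉ F, x e = y e) ∧
      ∀ (s a : ℕ) (c : GraphCircuit v a s) (o : Fin s), s < 2 ^ w → Narrow c (2 * r) → Free c →
        ∃ x : ℕ → (Sym2 (Fin v) → Bool), Monotone x ∧ (∀ i, ∀ e ∉ F, x i e = x 0 e) ∧
          (F.card : ℝ) * adv D c o k < 2 ^ 38 * numPatterns c x * (a + r * (w + 1)) *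
            (r * (w + 1)) ^ 2 * (Nat.log 2 v + 1) ^ 7 :=
  real_all v k w r hv hr hkv F hF hk

end Pool.Agent.Results.MP_71c844_lc.RealGates
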